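import Pool.Agent.H18.SAP.Stmts

set_option autoImplicit false

namespace SAP
open Finset

namespace TPL

theorem loc (n : ℕ) (c : Fin n → ℕ) (hc : ∀ i, ∀ p : ℕ, p.Prime → p ≤ n + 1 → p ∣ c i)
    (p : ℕ) (hp : p.Prime) : ∃ a : ℕ, ¬ p ∣ a ∧ ∀ i, ¬ p ∣ c i * a + 1 := by
  by_cases hpn : p ≤ n + 1
  · refine ⟨1, hp.one_lt.ne' ∘ Nat.dvd_one.mp, fun i h => ?_⟩
    have h1 := hc i p hp hpn
    rw [mul_one] at h
    exact hp.one_lt.ne' (Nat.dvd_one.mp ((Nat.dvd_add_right h1).mp h))
  · push Not at hpn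
    have : Fact p.Prime := ⟨hp⟩
    let bad : Finset (ZMod p) := insert 0 (univ.image (fun i : Fin n => -((c i : ZMod p))⁻¹))
    have hcard : bad.card < (univ : Finset (ZMod p)).card := by
      have h1 : bad.card ≤ (univ.image (fun i : Fin n => -((c i : ZMod p))⁻¹)).card + 1 :=
        card_insert_le _ _
      have h2 : (univ.image (fun i : Fin n => -((c i : ZMod p))⁻¹)).card ≤ n := by
        refine card_image_le.trans ?_
        simp
      rw [Finset.card_univ, ZMod.card]
      omega
    obtain ⟨a, -, ha⟩ := Finset.exists_mem_notMem_of_card_lt_card hcard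
    have ha0 : a ≠ 0 := fun h => ha (by rw [h]; exact mem_insert_self _ _)
    refine ⟨a.val, ?_, fun i h => ?_⟩
    · intro h
      apply ha0
      have := (ZMod.natCast_eq_zero_iff a.val p).mpr h
      rwa [ZMod.natCast_zmod_val] at this
    · have h1 := (ZMod.natCast_eq_zero_iff (c i * a.val + 1) p).mpr h
      push_cast at h1
      rw [ZMod.natCast_zmod_val] at h1
      apply ha
      have h2 : (c i : ZMod p) * a = -1 := by linear_combination h1
      have h3 : (c i : ZMod p) ≠ 0 := by
        intro h0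
        rw [h0, zero_mul] at h2
        exact one_ne_zero (neg_eq_zero.mp h2.symm)
      have h4 : a = -((c i : ZMod p))⁻¹ := by
        field_simp
        linear_combination h2
      rw [h4]
      exact mem_insert_of_mem (mem_image_of_mem _ (mem_univ i))

end TPL

theorem tpl : S_TPL := by
  intro n w0 c hmono hpos hdiv
  set B : ℕ := w0 + ∑ i, c i with hB
  have hcB : ∀ i, c i ≤ B := fun i => by
    have : c i ≤ ∑ i, c i := single_le_sum (f := c) (fun i _ => Nat.zero_le _) (mem_univ i)
    omega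
  have hpB : ∀ p : ℕ, p.Prime → p ≤ B → p ∣ primorial B := fun p hp h =>
    (hp.dvd_primorial_iff).mpr h
  choose! a ha using TPL.loc n c hdiv
  let P : Finset ℕ := (range (B + 1)).filter Nat.Prime
  obtain ⟨b, hb⟩ := Nat.chineseRemainderOfFinset a id P
    (fun i hi => ((mem_filter.mp hi).2).ne_zero)
    (fun i hi j hj hij => by
      have hi' := (mem_filter.mp (mem_coe.mp hi)).2
      have hj' := (mem_filter.mp (mem_coe.mp hj)).2
      exact (Nat.coprime_primes hi' hj').mpr hij)
  have hb' : ∀ p : ℕ, p.Prime → p ∣ primorial B → b ≡ a p [MOD p] := fun p hp h =>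
    hb p (mem_filter.mpr ⟨mem_range.mpr (Nat.lt_succ_of_le ((hp.dvd_primorial_iff).mp h)), hp⟩)
  refine ⟨primorial B, b, ⟨primorial_pos B, fun p hp h => hpB p hp (by omega), hmono, hpos,
    fun i p hp h => hpB p hp ((Nat.le_of_dvd (hpos i) h).trans (hcB i)),
    fun i j hij p hp h => hpB p hp ?_, ?_, fun i => ?_⟩⟩
  · have h1 : c i < c j := hmono hij
    have h2 : p ≤ c j - c i := Nat.le_of_dvd (by omega) h
    have := hcB j
    omega
  · refine Nat.Coprime.symm (Nat.coprime_of_dvd fun p hp h1 h2 => ?_)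
    exact (ha p hp).1 ((hb' p hp h1).dvd_iff dvd_rfl |>.mp h2)
  · refine Nat.Coprime.symm (Nat.coprime_of_dvd fun p hp h1 h2 => ?_)
    refine (ha p hp).2 i ?_
    have h3 : c i * b + 1 ≡ c i * a p + 1 [MOD p] := ((hb' p hp h1).mul_left _).add_right _
    exact (h3.dvd_iff dvd_rfl).mp h2

end SAP
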